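import Pool.Agent.X225.Rf.Gad

/-!
# MP_dee721_co: number of dimensions of rigid facets in Vietoris–Rips complexes of the hypercube

`f(n;r)`, the number of distinct dimensions of rigid facets of `VR(Q_n;r)`, is exponential in
`r`: `f(n;r) ≥ 2^(r-8)` for all `r ≥ 8` and `n ≥ r+2`.
-/

namespace Pool.Agent.Results.MP_dee721_co.ExponentiallyManyDimensions

/-- The vertices of the hypercube `Q_n` (`Bool` in place of `{±1}`); the Hamming distance is
Mathlib's `hammingDist`. -/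
abbrev Cube (n : ℕ) := Fin n → Bool

/-- simplices of the Vietoris–Rips complex `VR(Q_n;r)` -/
def IsSimplex {n : ℕ} (r : ℕ) (σ : Finset (Cube n)) : Prop :=
  σ.Nonempty ∧ ∀ x ∈ σ, ∀ y ∈ σ, hammingDist x y ≤ r

/-- facets: simplices maximal under inclusion -/
def IsFacet {n : ℕ} (r : ℕ) (σ : Finset (Cube n)) : Prop :=
  IsSimplex r σ ∧ ∀ τ, IsSimplex r τ → σ ⊆ τ → τ = σ

/-- rigid simplices: every vertex has eccentricity exactly `r` within the simplex -/
def IsRigid {n : ℕ} (r : ℕ) (σ : Finset (Cube n)) : Prop :=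
  ∀ x ∈ σ, (σ.sup fun y => hammingDist x y) = r

/-- `f(n;r)`: the number of distinct dimensions of rigid facets of `VR(Q_n;r)` -/
noncomputable def f (n r : ℕ) : ℕ :=
  Set.ncard {k | ∃ σ : Finset (Cube n), IsFacet r σ ∧ IsRigid r σ ∧ k = σ.card - 1}

open X225.Rf

lemma facet_of_R {n r : ℕ} {A : Finset (Cube n)} (h : R r A) : IsFacet r A := by
  refine ⟨⟨h.ne, h.le⟩, ?_⟩
  intro τ hτ hA
  apply le_antisymm _ hA
  intro x hx
  by_contra hc
  obtain ⟨a, ha, hlt⟩ := h.mx x hc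
  have := hτ.2 x hx a (hA ha)
  omega

lemma rigid_of_R {n r : ℕ} {A : Finset (Cube n)} (h : R r A) : IsRigid r A := by
  intro a ha
  apply le_antisymm
  · exact Finset.sup_le fun x hx => h.le a ha x hx
  · obtain ⟨x, hx, hxa⟩ := h.far a ha
    rw [hammingDist_comm] at hxa
    calc r = hammingDist a x := hxa.symm
      _ ≤ _ := Finset.le_sup (f := fun x => hammingDist a x) hx

/-! ### the base example -/

/-- binary codes of the 37 points of the base facet `X` -/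
def cX : List ℕ := [0, 2, 3, 6, 10, 16, 19, 22, 26, 34, 45, 50, 64, 65, 67, 68, 70, 71, 72,
  74, 75, 78, 81, 84, 87, 88, 91, 94, 96, 98, 99, 102, 106, 112, 115, 118, 122]

/-- binary codes of `P` -/
def cP : List ℕ := [30, 45, 61, 98]

/-- binary codes of `Q` -/
def cQ : List ℕ := [0, 1, 3, 4, 6, 7, 8, 10, 11, 14, 16, 17, 19, 20, 22, 23, 24, 26, 27, 30, 32,
  34, 35, 37, 38, 41, 42, 44, 45, 47, 48, 50, 51, 54, 58, 68, 69, 71, 72, 73, 75, 76, 78, 79, 81,
  84, 85, 87, 88, 89, 91, 92, 94, 95, 100, 102, 103, 104, 106, 107, 109, 110, 112, 115, 116, 118,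
  119, 120, 122, 123, 126]

/-- the point with a given binary code -/
def pt (a : ℕ) : Cube 7 := fun i => a.testBit i

/-- Hamming distance of binary codes -/
def hd (a b : ℕ) : ℕ :=
  (if ¬ a.testBit 0 = b.testBit 0 then 1 else 0) + (if ¬ a.testBit 1 = b.testBit 1 then 1 else 0) +
  (if ¬ a.testBit 2 = b.testBit 2 then 1 else 0) + (if ¬ a.testBit 3 = b.testBit 3 then 1 else 0) +
  (if ¬ a.testBit 4 = b.testBit 4 then 1 else 0) + (if ¬ a.testBit 5 = b.testBit 5 then 1 else 0) +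
  (if ¬ a.testBit 6 = b.testBit 6 then 1 else 0)

lemma dist_pt (a b : ℕ) : hammingDist (pt a) (pt b) = hd a b := by
  unfold hammingDist hd
  rw [Finset.card_filter, Fin.sum_univ_seven]
  simp only [pt, ne_eq]
  rfl

lemma exists_pt (x : Cube 7) : ∃ a, a < 128 ∧ x = pt a := by
  refine ⟨Nat.ofBits x, Nat.ofBits_lt_two_pow x, ?_⟩
  funext i
  unfold pt
  rw [Nat.testBit_ofBits_lt x i i.2]

lemma pt_inj {a b : ℕ} (ha : a < 128) (hb : b < 128) (h : pt a = pt b) : a = b := by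
  apply Nat.eq_of_testBit_eq
  intro i
  by_cases hi : i < 7
  · exact congrFun h ⟨i, hi⟩
  · have h1 : (2 : ℕ) ^ 7 ≤ 2 ^ i := Nat.pow_le_pow_right (by norm_num) (by omega)
    rw [Nat.testBit_lt_two_pow (by omega), Nat.testBit_lt_two_pow (by omega)]

/-- the set of points with codes in a list -/
def S (l : List ℕ) : Finset (Cube 7) := (l.map pt).toFinset

lemma mem_S {l : List ℕ} {x : Cube 7} : x ∈ S l ↔ ∃ a ∈ l, pt a = x := by
  unfold S
  rw [List.mem_toFinset, List.mem_map]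

lemma card_S {l : List ℕ} (h1 : ∀ a ∈ l, a < 128) (h2 : l.Nodup) : (S l).card = l.length := by
  unfold S
  rw [List.toFinset_card_of_nodup]
  · rw [List.length_map]
  · refine List.Nodup.map_on ?_ h2
    intro a ha b hb h
    exact pt_inj (h1 a ha) (h1 b hb) h

lemma tr_le {l l' : List ℕ} {k : ℕ} (h : ∀ a ∈ l, ∀ b ∈ l', hd a b ≤ k) :
    ∀ x ∈ S l, ∀ y ∈ S l', hammingDist x y ≤ k := by
  intro x hx y hy
  obtain ⟨a, ha, rfl⟩ := mem_S.1 hx
  obtain ⟨b, hb, rfl⟩ := mem_S.1 hy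
  rw [dist_pt]
  exact h a ha b hb

lemma tr_max {l l' : List ℕ}
    (h : ∀ a ∈ List.range 128, a ∉ l → (∃ b ∈ l', 5 < hd a b) ∨ ∃ b ∈ cX, 6 < hd a b) :
    ∀ x, x ∉ S l → (∃ q ∈ S l', 5 < hammingDist x q) ∨ ∃ q ∈ S cX, 6 < hammingDist x q := by
  intro x hx
  obtain ⟨a, ha, rfl⟩ := exists_pt x
  rcases h a (List.mem_range.2 ha) (fun h => hx (mem_S.2 ⟨a, h, rfl⟩)) with
    ⟨b, hb, hd⟩ | ⟨b, hb, hd⟩
  · exact Or.inl ⟨pt b, mem_S.2 ⟨b, hb, rfl⟩, by rw [dist_pt]; exact hd⟩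
  · exact Or.inr ⟨pt b, mem_S.2 ⟨b, hb, rfl⟩, by rw [dist_pt]; exact hd⟩

lemma tr_rig {l l' : List ℕ}
    (h : ∀ a ∈ l, (∃ b ∈ l', hd a b = 5) ∨ ∃ b ∈ cX, hd a b = 6) :
    ∀ x ∈ S l, (∃ q ∈ S l', hammingDist x q = 5) ∨ ∃ q ∈ S cX, hammingDist x q = 6 := by
  intro x hx
  obtain ⟨a, ha, rfl⟩ := mem_S.1 hx
  rcases h a ha with ⟨b, hb, hd⟩ | ⟨b, hb, hd⟩
  · exact Or.inl ⟨pt b, mem_S.2 ⟨b, hb, rfl⟩, by rw [dist_pt]; exact hd⟩
  · exact Or.inr ⟨pt b, mem_S.2 ⟨b, hb, rfl⟩, by rw [dist_pt]; exact hd⟩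

lemma codes_far : ∀ a ∈ cX, ∃ b ∈ cX, hd b a = 5 := by decide +kernel

lemma codes_mx : ∀ a ∈ List.range 128, a ∉ cX → ∃ b ∈ cX, 5 < hd a b := by
  decide +kernel

lemma R_base : R 5 (S cX) := by
  refine ⟨⟨pt 0, mem_S.2 ⟨0, by decide, rfl⟩⟩, tr_le (by decide +kernel), ?_, ?_⟩
  · intro x hx
    obtain ⟨a, ha, rfl⟩ := mem_S.1 hx
    obtain ⟨b, hb, hd⟩ := codes_far a ha
    exact ⟨pt b, mem_S.2 ⟨b, hb, rfl⟩, by rw [dist_pt]; exact hd⟩
  · intro x hx
    obtain ⟨a, ha, rfl⟩ := exists_pt x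
    obtain ⟨b, hb, hd⟩ := codes_mx a (List.mem_range.2 ha)
      (fun h => hx (mem_S.2 ⟨a, h, rfl⟩))
    exact ⟨pt b, mem_S.2 ⟨b, hb, rfl⟩, by rw [dist_pt]; exact hd⟩

lemma gad : Gad (S cX) (S cP) (S cQ) where
  hX := R_base
  bP := tr_le (by decide +kernel)
  bQ := tr_le (by decide +kernel)
  c := tr_le (by decide +kernel)
  dP := tr_max (by decide +kernel)
  dQ := tr_max (by decide +kernel)
  eP := tr_rig (by decide +kernel)
  eQ := tr_rig (by decide +kernel)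

/-! ### exponentially many cardinalities -/

/-- `f(n;r)` is at least the number of cardinalities obtained from `R` -/
lemma le_f {n r N c d : ℕ} (hc : 0 < c) (hd : 0 < d)
    (h : ∀ k, k < N → ∃ A : Finset (Cube n), R r A ∧ A.card = c + d * k) : N ≤ f n r := by
  have hfin : {k | ∃ σ : Finset (Cube n), IsFacet r σ ∧ IsRigid r σ ∧ k = σ.card - 1}.Finite := by
    apply (Set.finite_Iic (2 ^ n)).subset
    rintro k ⟨σ, _, _, rfl⟩
    have : σ.card ≤ 2 ^ n := by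
      calc σ.card ≤ Fintype.card (Cube n) := Finset.card_le_univ σ
        _ = 2 ^ n := by simp [Cube]
    exact Set.mem_Iic.2 (by omega)
  have hinj : Function.Injective fun k : ℕ => c + d * k - 1 := by
    intro a b hab
    simp only at hab
    have h1 : d * a = d * b := by omega
    exact Nat.eq_of_mul_eq_mul_left hd h1
  have hsub : (((Finset.range N).image fun k => c + d * k - 1 : Finset ℕ) : Set ℕ) ⊆
      {k | ∃ σ : Finset (Cube n), IsFacet r σ ∧ IsRigid r σ ∧ k = σ.card - 1} := by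
    intro x hx
    rw [Finset.mem_coe, Finset.mem_image] at hx
    obtain ⟨k, hk, rfl⟩ := hx
    obtain ⟨A, hA, hAc⟩ := h k (Finset.mem_range.1 hk)
    exact ⟨A, facet_of_R hA, rigid_of_R hA, by rw [hAc]⟩
  have h2 := Set.ncard_le_ncard hsub hfin
  rw [Set.ncard_coe_finset, Finset.card_image_of_injective _ hinj, Finset.card_range] at h2
  exact h2

lemma base_family {s : ℕ} (hs : Even s) (k : ℕ) (hk : k ≤ 2 ^ s) :
    ∃ A : Finset (Cube (9 + s)), R (7 + s) A ∧ A.card = 37 * 2 ^ (s + 2) + k := by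
  obtain ⟨T, hT, hTk⟩ := exists_ok hk
  have hm : Even (s + 2) := by
    rw [Nat.even_add]
    simp [hs]
  have hR := big_R hm (by omega) gad hT
  have hc := card_big (S cX) (S cP) (S cQ) hT
  have e1 : (S cX).card = 37 := by rw [card_S (by decide) (by decide)]; rfl
  have e2 : (S cP).card = 4 := by rw [card_S (by decide) (by decide)]; rfl
  have e3 : (S cQ).card = 71 := by rw [card_S (by decide) (by decide +kernel)]; rfl
  rw [e1, e2, e3, hTk] at hc
  have key : ∀ a b : ℕ, 7 + (s + 2) = a → 5 + (s + 2) = b →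
      ∃ A : Finset (Cube a), R b A ∧ A.card = 37 * 2 ^ (s + 2) + k := by
    rintro a b rfl rfl
    refine ⟨_, hR, ?_⟩
    have : ((big (S cX) (S cP) (S cQ) T).card : ℤ) = ((37 * 2 ^ (s + 2) + k : ℕ) : ℤ) := by
      rw [hc]; push_cast; ring
    exact_mod_cast this
  exact key (9 + s) (7 + s) (by omega) (by omega)

lemma lift_family {n r c : ℕ} (d : ℕ) (h : ∃ A : Finset (Cube n), R r A ∧ A.card = c) :
    ∃ A : Finset (Cube (n + d)), R r A ∧ A.card = c := by
  induction d with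
  | zero => exact h
  | succ d ih =>
    obtain ⟨A, hA, hc⟩ := ih
    exact ⟨_, hA.lift, by rw [Finset.card_map, hc]⟩

theorem main_bound (n r : ℕ) (hr : 8 ≤ r) (hn : r + 2 ≤ n) : 2 ^ (r - 8) ≤ f n r := by
  rcases Nat.even_or_odd r with he | ho
  · -- `r = 8 + s`, `s` even
    obtain ⟨s, rfl⟩ := Nat.exists_eq_add_of_le hr
    have hs : Even s := by
      rw [Nat.even_add] at he
      exact he.1 (by decide)
    obtain ⟨d, rfl⟩ : ∃ d, n = 9 + s + 1 + d := ⟨n - (10 + s), by omega⟩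
    have h8 : 8 + s - 8 = s := by omega
    rw [h8]
    apply le_f (c := 2 * (37 * 2 ^ (s + 2))) (d := 2) (by positivity) (by norm_num)
    intro k hk
    apply lift_family
    obtain ⟨A, hA, hc⟩ := base_family hs k hk.le
    have h9 : 8 + s = 7 + s + 1 := by omega
    rw [h9]
    exact ⟨_, hA.dbl, by rw [card_dbl, hc]; ring⟩
  · obtain ⟨s, rfl⟩ : ∃ s, r = 7 + s := ⟨r - 7, by omega⟩
    have hs : Even s := by
      rw [Nat.odd_add] at ho
      exact ho.1 (by decide)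
    obtain ⟨d, rfl⟩ : ∃ d, n = 9 + s + d := ⟨n - (9 + s), by omega⟩
    have h1 : 2 ^ (7 + s - 8) ≤ 2 ^ s := Nat.pow_le_pow_right (by norm_num) (by omega)
    refine h1.trans ?_
    apply le_f (c := 37 * 2 ^ (s + 2)) (d := 1) (by positivity) (by norm_num)
    intro k hk
    apply lift_family
    obtain ⟨A, hA, hc⟩ := base_family hs k hk.le
    exact ⟨A, hA, by rw [hc]; ring⟩

/-- **Theorem.** `f(n;r)` is exponential in `r` for `n` sufficiently large: there are `c > 0` and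
`r₀` such that for every `r ≥ r₀` there is `n₀` with `f(n;r) ≥ e^{cr}` for all `n ≥ n₀`. More
precisely, `f(n;r) ≥ 2^(r-8)` for all `r ≥ 8` and all `n ≥ r+2`. -/
theorem result :
    (∃ c : ℝ, 0 < c ∧ ∃ r₀ : ℕ, ∀ r : ℕ, r₀ ≤ r → ∃ n₀ : ℕ, ∀ n : ℕ, n₀ ≤ n →
      Real.exp (c * r) ≤ (f n r : ℝ)) ∧
    ∀ n r : ℕ, 8 ≤ r → r + 2 ≤ n → 2 ^ (r - 8) ≤ f n r := by
  refine ⟨⟨3 / 10, by norm_num, 16, ?_⟩, main_bound⟩
  intro r hr
  refine ⟨r + 2, ?_⟩
  intro n hn
  have h1 : (2 : ℝ) ^ (r - 8) ≤ (f n r : ℝ) := by exact_mod_cast main_bound n r (by omega) hn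
  refine le_trans ?_ h1
  rw [← Real.le_log_iff_exp_le (by positivity), Real.log_pow]
  have h2 := Real.log_two_gt_d9
  have h3 : ((r - 8 : ℕ) : ℝ) = (r : ℝ) - 8 := by
    rw [Nat.cast_sub (by omega)]; norm_num
  rw [h3]
  have h4 : (16 : ℝ) ≤ r := by exact_mod_cast hr
  nlinarith

end Pool.Agent.Results.MP_dee721_co.ExponentiallyManyDimensions
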